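import Mathlib
import Pool.Agent.H892R2.Proj.Link

/-!
# Intrinsic volumes of hyperplane projections do not determine those of lower projections

The definitions used in the statement (`E`, `O`, `haarO`, `plane`, `proj`, `within`, `vol`, `kappa`,
`flagCoeff`, `intrinsicVolume`, `coord`, `coords`, `projVolume`) are in `Pool.Agent.H892R2.Proj.Defs`.
-/

set_option autoImplicit false

open Set MeasureTheory Module
open scoped RealInnerProductSpace

namespace Pool.Agent.Results.MP_536123_gt.NotFromHyperplanes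

open Pool.Agent.H892R2.Proj

theorem body_interior {σ τ : ℝ} (hσ : |σ| ≤ 1 / 100) (hτ : |τ| ≤ 1 / 1000) :
    (interior (body σ τ)).Nonempty := by
  refine ⟨0, mem_interior.mpr ⟨Metric.ball 0 (1 / 2), ?_, Metric.isOpen_ball, by simp⟩⟩
  intro x hx v hv
  rw [mem_ball_zero_iff] at hx
  have h1 : ⟪v, x⟫ ≤ ‖v‖ * ‖x‖ := real_inner_le_norm _ _
  rw [hv, one_mul] at h1
  have h2 := (abs_le.mp (PP_bound hσ hτ (le_one_of_norm hv))).1
  linarith

/-- There are integers `n, i, k` with `1 < i ≤ k < n - 1` (namely `n = 4`, `i = k = 2`) and compact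
convex sets `K₁, K₂` in `E n`, both with nonempty interior, such that
`V_i(K₁|u^⊥) = V_i(K₂|u^⊥)` for every unit vector `u`, while `V_i(K₁|S) ≠ V_i(K₂|S)` for some
`k`-dimensional subspace `S`. -/
theorem result : ∃ n i k : ℕ, 1 < i ∧ i ≤ k ∧ k < n - 1 ∧ ∃ K₁ K₂ : Set (E n),
    (IsCompact K₁ ∧ Convex ℝ K₁ ∧ (interior K₁).Nonempty) ∧
    (IsCompact K₂ ∧ Convex ℝ K₂ ∧ (interior K₂).Nonempty) ∧
    (∀ u : E n, ‖u‖ = 1 → projVolume i K₁ (ℝ ∙ u)ᗮ = projVolume i K₂ (ℝ ∙ u)ᗮ) ∧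
    ∃ S : Submodule ℝ (E n), finrank ℝ S = k ∧ projVolume i K₁ S ≠ projVolume i K₂ S := by
  have a1 : |(1 / 100 : ℝ)| ≤ 1 / 100 := by norm_num
  have a2 : |(1 / 100 : ℝ) ^ 2| ≤ 1 / 1000 := by norm_num
  have a3 : |(0:ℝ)| ≤ 1 / 100 := by norm_num
  have a4 : |-(1 / 100 : ℝ) ^ 2| ≤ 1 / 1000 := by norm_num
  refine ⟨4, 2, 2, by norm_num, by norm_num, by norm_num, body (1 / 100) ((1 / 100) ^ 2),
    body 0 (-(1 / 100) ^ 2), ⟨body_compact a1 a2, body_convex _ _, body_interior a1 a2⟩,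
    ⟨body_compact a3 a4, body_convex _ _, body_interior a3 a4⟩, ?_, S0, S0_finrank, ?_⟩
  · intro u hu
    exact hyperplane_eq (1 / 100) (by norm_num) le_rfl u hu
  · exact plane_ne (1 / 100) (by norm_num) le_rfl

end Pool.Agent.Results.MP_536123_gt.NotFromHyperplanes
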